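import Mathlib
import Pool.Agent.V117.MonIdeal
import Pool.Agent.V117.Kosz2

/-! If the Betti numbers of an edge ideal depend on the field, then so do those of the square of
the edge ideal of the cone. -/

namespace Pool.Agent.Results.MP_01886a_al.ConeSquare

open MvPolynomial Pool.Agent.V117 Pool.Agent.V117.MatHom Pool.Agent.V117.Kosz

/-- The squarefree exponent vector of `F`. -/
noncomputable def sqf {N : ℕ} (F : Finset (Fin N)) : Fin N →₀ ℕ := ∑ j ∈ F, Finsupp.single j 1

/-- The multidegree `a` part of the `i`-th module of the Koszul complex of the variables with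
coefficients in the ideal `J`: the function `c` stands for the sum of `c(F) x^{a - F} e_F`. -/
def koszulC {N : ℕ} (K : Type) [Field K] (J : Ideal (MvPolynomial (Fin N) K)) (i : ℕ)
    (a : Fin N →₀ ℕ) : Submodule K (Finset (Fin N) → K) where
  carrier := {c | ∀ F, c F ≠ 0 → F.card = i ∧ sqf F ≤ a ∧ monomial (a - sqf F) (1 : K) ∈ J}
  add_mem' := by
    intro c d hc hd F hF
    by_cases h : c F = 0
    · apply hd F
      intro h2
      apply hF
      rw [Pi.add_apply, h, h2, add_zero]
    · exact hc F h
  zero_mem' := fun F hF => absurd rfl hF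
  smul_mem' := by
    intro r c hc F hF
    apply hc F
    intro h
    apply hF
    rw [Pi.smul_apply, h, smul_zero]

/-- The Koszul differential `e_F ↦ ∑_{j ∈ F} (-1)^{#{l ∈ F : l < j}} x_j e_{F ∖ j}` in a fixed
multidegree. -/
def koszulD {N : ℕ} (K : Type) [Field K] : (Finset (Fin N) → K) →ₗ[K] (Finset (Fin N) → K) where
  toFun c := fun G => ∑ j ∈ Gᶜ, (-1) ^ (G.filter (· < j)).card * c (insert j G)
  map_add' := bd_add
  map_smul' := bd_smul

/-- The multigraded Betti number `β_{i,a}(J) = dim Tor_i(J, K)_a`, the dimension of the homology of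
the Koszul complex. -/
noncomputable def mbetti {N : ℕ} (K : Type) [Field K] (J : Ideal (MvPolynomial (Fin N) K)) (i : ℕ)
    (a : Fin N →₀ ℕ) : ℕ :=
  Module.finrank K ((koszulC K J i a ⊓ LinearMap.ker (koszulD K) : Submodule K _) ⧸
    ((koszulC K J (i + 1) a).map (koszulD K)).submoduleOf
      (koszulC K J i a ⊓ LinearMap.ker (koszulD K)))

/-- The graded Betti number `β_{i,j}(J)`. -/
noncomputable def gbetti {N : ℕ} (K : Type) [Field K] (J : Ideal (MvPolynomial (Fin N) K))
    (i j : ℕ) : ℕ :=
  ∑ a ∈ Finset.finsuppAntidiag Finset.univ j, mbetti K J i a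

/-- The Betti numbers depend on the field. -/
def FieldDependent {N : ℕ} (J : ∀ (K : Type) [Field K], Ideal (MvPolynomial (Fin N) K)) : Prop :=
  ∃ (K : Type) (_ : Field K) (K' : Type) (_ : Field K') (i j : ℕ),
    gbetti K (J K) i j ≠ gbetti K' (J K') i j

/-- The edge ideal. -/
noncomputable def edgeIdeal {N : ℕ} (G : SimpleGraph (Fin N)) (K : Type) [Field K] :
    Ideal (MvPolynomial (Fin N) K) :=
  Ideal.span {f | ∃ u v, G.Adj u v ∧ f = X u * X v}

/-- The cone over `G`, with the last vertex as cone point. -/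
def coneGraph {n : ℕ} (G : SimpleGraph (Fin n)) : SimpleGraph (Fin (n + 1)) where
  Adj u v := (u = Fin.last n ∧ v ≠ Fin.last n) ∨ (v = Fin.last n ∧ u ≠ Fin.last n) ∨
    ∃ i j, G.Adj i j ∧ u = Fin.castSucc i ∧ v = Fin.castSucc j
  symm := ⟨by
    rintro u v (h | h | ⟨i, j, h, h1, h2⟩)
    · exact Or.inr (Or.inl h)
    · exact Or.inl h
    · exact Or.inr (Or.inr ⟨j, i, h.symm, h2, h1⟩)⟩
  loopless := ⟨by
    rintro u (h | h | ⟨i, j, h, h1, h2⟩)
    · exact h.2 h.1
    · exact h.2 h.1
    · have : i = j := Fin.castSucc_injective _ (h1.symm.trans h2)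
      subst this
      exact G.loopless.irrefl _ h⟩

/-! ### Monomial ideals -/

section

variable {N : ℕ}

lemma sqf_apply (F : Finset (Fin N)) (l : Fin N) : sqf F l = if l ∈ F then 1 else 0 := by
  unfold sqf
  rw [Finsupp.coe_finsetSum, Finset.sum_apply]
  simp only [Finsupp.single_apply]
  rw [Finset.sum_ite_eq' F l (fun _ => 1)]

/-- The Koszul family of a set of exponents in a multidegree. -/
def Kfam (P : Set (Fin N →₀ ℕ)) (a : Fin N →₀ ℕ) : Set (Finset (Fin N)) :=
  {F | sqf F ≤ a ∧ a - sqf F ∈ P}

lemma Kfam_down {P : Set (Fin N →₀ ℕ)} (hP : IsUpperSet P) (a : Fin N →₀ ℕ) :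
    ∀ F ∈ Kfam P a, ∀ F', F' ⊆ F → F' ∈ Kfam P a := by
  rintro F ⟨h1, h2⟩ F' hF'
  have h3 : sqf F' ≤ sqf F := by
    intro l
    rw [sqf_apply, sqf_apply]
    split_ifs with h4 h5
    · exact le_rfl
    · exact absurd (hF' h4) h5
    · exact Nat.zero_le _
    · exact Nat.zero_le _
  exact ⟨h3.trans h1, hP (tsub_le_tsub_left h3 a) h2⟩

lemma mbetti_eq (K : Type) [Field K] {P : Set (Fin N →₀ ℕ)} (hP : IsUpperSet P)
    {J : Ideal (MvPolynomial (Fin N) K)} (hJ : J = upIdeal K P) (i : ℕ) (a : Fin N →₀ ℕ) :
    mbetti K J i a = hdim K (Kfam P a) i := by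
  have h1 : ∀ i, koszulC K J i a = chS K (Kfam P a) i := by
    intro i
    ext c
    constructor
    · intro hc F hF
      obtain ⟨h1, h2, h3⟩ := hc F hF
      rw [hJ, monomial_mem_upIdeal hP one_ne_zero] at h3
      exact ⟨⟨h2, h3⟩, h1⟩
    · intro hc F hF
      obtain ⟨⟨h1, h2⟩, h3⟩ := hc F hF
      refine ⟨h3, h1, ?_⟩
      rw [hJ, monomial_mem_upIdeal hP one_ne_zero]
      exact h2
  have h2 : koszulD K = bdL (ι := Fin N) K := rfl
  unfold mbetti hdim
  rw [h1, h1, h2]

/-- exponents of the edge ideal -/
def PG (G : SimpleGraph (Fin N)) : Set (Fin N →₀ ℕ) :=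
  {m | ∃ u v, G.Adj u v ∧ Finsupp.single u 1 + Finsupp.single v 1 ≤ m}

/-- exponents of the square of the edge ideal -/
def P2 (G : SimpleGraph (Fin N)) : Set (Fin N →₀ ℕ) :=
  {m | ∃ u v u' v', G.Adj u v ∧ G.Adj u' v' ∧
    Finsupp.single u 1 + Finsupp.single v 1 + (Finsupp.single u' 1 + Finsupp.single v' 1) ≤ m}

lemma PG_upper (G : SimpleGraph (Fin N)) : IsUpperSet (PG G) := by
  rintro a b hab ⟨u, v, h, hle⟩
  exact ⟨u, v, h, hle.trans hab⟩

lemma P2_upper (G : SimpleGraph (Fin N)) : IsUpperSet (P2 G) := by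
  rintro a b hab ⟨u, v, u', v', h, h', hle⟩
  exact ⟨u, v, u', v', h, h', hle.trans hab⟩

lemma edgeIdeal_eq (G : SimpleGraph (Fin N)) (K : Type) [Field K] :
    edgeIdeal G K = upIdeal K (PG G) := by
  apply le_antisymm
  · unfold edgeIdeal
    rw [Ideal.span_le]
    rintro _ ⟨u, v, h, rfl⟩
    refine Ideal.subset_span ⟨Finsupp.single u 1 + Finsupp.single v 1, ⟨u, v, h, le_rfl⟩, ?_⟩
    simp only [X, monomial_mul, mul_one]
  · unfold upIdeal
    rw [Ideal.span_le]
    rintro _ ⟨m, ⟨u, v, h, hle⟩, rfl⟩
    have : monomial m (1 : K) = monomial (m - (Finsupp.single u 1 + Finsupp.single v 1)) 1 *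
        (X u * X v) := by
      simp only [X, monomial_mul, mul_one]
      rw [tsub_add_cancel_of_le hle]
    show monomial m (1 : K) ∈ _
    rw [this]
    exact Ideal.mul_mem_left _ _ (Ideal.subset_span ⟨u, v, h, rfl⟩)

lemma edgeIdeal_sq (G : SimpleGraph (Fin N)) (K : Type) [Field K] :
    (edgeIdeal G K) ^ 2 = upIdeal K (P2 G) := by
  rw [pow_two, edgeIdeal_eq]
  apply upIdeal_mul
  · rintro p ⟨u, v, h, hle⟩ q ⟨u', v', h', hle'⟩
    exact ⟨u, v, u', v', h, h', add_le_add hle hle'⟩
  · rintro r ⟨u, v, u', v', h, h', hle⟩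
    exact ⟨_, ⟨u, v, h, le_rfl⟩, _, ⟨u', v', h', le_rfl⟩, hle⟩

/-- nonsquarefree multidegrees of an edge ideal do not contribute -/
lemma hdim_nonsqf (G : SimpleGraph (Fin N)) (K : Type) [Field K] (a : Fin N →₀ ℕ) (l : Fin N)
    (hl : 2 ≤ a l) (i : ℕ) : hdim K (Kfam (PG G) a) i = 0 := by
  refine hdim_of_cone K (Kfam_down (PG_upper G) a) l ?_ i
  rintro F ⟨h1, u, v, hadj, hle⟩
  have hne : u ≠ v := by rintro rfl; exact G.loopless.irrefl _ hadj
  constructor
  · intro x
    have h2 := h1 x
    rw [sqf_apply] at h2 ⊢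
    by_cases hx : x = l
    · subst hx
      split_ifs <;> omega
    · have : (x ∈ insert l F) = (x ∈ F) := by
        rw [Finset.mem_insert]; simp [hx]
      simp only [this]
      exact h2
  · refine ⟨u, v, hadj, ?_⟩
    intro x
    have h2 := hle x
    simp only [Finsupp.add_apply, Finsupp.tsub_apply, Finsupp.single_apply, sqf_apply] at h2 ⊢
    by_cases hx : x = l
    · subst hx
      rw [if_pos (Finset.mem_insert_self _ _)]
      split_ifs with h3 h4
      · exact absurd (h3.trans h4.symm) hne
      · omega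
      · omega
      · omega
    · have : (x ∈ insert l F) = (x ∈ F) := by
        rw [Finset.mem_insert]; simp [hx]
      simp only [this]
      exact h2

lemma Kfam_sqf (G : SimpleGraph (Fin N)) (W : Finset (Fin N)) :
    Kfam (PG G) (sqf W) = DD G W := by
  ext F
  constructor
  · rintro ⟨h1, u, v, hadj, hle⟩
    have hne : u ≠ v := by rintro rfl; exact G.loopless.irrefl _ hadj
    have hu := hle u
    have hv := hle v
    simp only [Finsupp.add_apply, Finsupp.tsub_apply, Finsupp.single_apply, sqf_apply, if_true,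
      if_neg hne, if_neg hne.symm] at hu hv
    refine ⟨?_, u, ?_, v, ?_, ?_, ?_, hadj⟩
    · intro x hx
      have h2 := h1 x
      rw [sqf_apply, sqf_apply, if_pos hx] at h2
      by_contra hcon
      rw [if_neg hcon] at h2
      omega
    · by_contra hcon; rw [if_neg hcon] at hu; omega
    · by_contra hcon; rw [if_neg hcon] at hv; omega
    · intro hcon; rw [if_pos hcon] at hu; split_ifs at hu <;> omega
    · intro hcon; rw [if_pos hcon] at hv; split_ifs at hv <;> omega
  · rintro ⟨h1, u, hu, v, hv, hu2, hv2, hadj⟩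
    have hne : u ≠ v := by rintro rfl; exact G.loopless.irrefl _ hadj
    constructor
    · intro x
      rw [sqf_apply, sqf_apply]
      split_ifs with h2 h3
      · exact le_rfl
      · exact absurd (h1 h2) h3
      · exact Nat.zero_le _
      · exact Nat.zero_le _
    · refine ⟨u, v, hadj, ?_⟩
      intro x
      simp only [Finsupp.add_apply, Finsupp.tsub_apply, Finsupp.single_apply, sqf_apply]
      by_cases hxu : u = x
      · subst hxu
        rw [if_pos rfl, if_neg hne.symm, if_pos hu, if_neg hu2] <;> omega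
      · by_cases hxv : v = x
        · subst hxv
          rw [if_neg hxu, if_pos rfl, if_pos hv, if_neg hv2] <;> omega
        · rw [if_neg hxu, if_neg hxv]
          exact Nat.zero_le _

end

/-! ### The square of the edge ideal of the cone -/

section

variable {n : ℕ}

/-- the multidegree -/
noncomputable def adeg (W : Finset (Fin n)) : Fin (n + 1) →₀ ℕ :=
  sqf (W.map Fin.castSuccOrderEmb.toEmbedding) + Finsupp.single (Fin.last n) 2

lemma last_notMem (W : Finset (Fin n)) :
    Fin.last n ∉ W.map (Fin.castSuccOrderEmb (n := n)).toEmbedding := by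
  rw [Finset.mem_map]
  rintro ⟨i, _, hi⟩
  exact (Fin.castSucc_lt_last i).ne hi

lemma adeg_last (W : Finset (Fin n)) : adeg W (Fin.last n) = 2 := by
  unfold adeg
  rw [Finsupp.add_apply, sqf_apply, if_neg (last_notMem W), Finsupp.single_apply, if_pos rfl]

lemma adeg_of_ne (W : Finset (Fin n)) {x : Fin (n + 1)} (hx : x ≠ Fin.last n) :
    adeg W x = if x ∈ W.map (Fin.castSuccOrderEmb (n := n)).toEmbedding then 1 else 0 := by
  unfold adeg
  rw [Finsupp.add_apply, sqf_apply, Finsupp.single_apply, if_neg (Ne.symm hx), add_zero]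

lemma cone_adj_of_ne (G : SimpleGraph (Fin n)) {u v : Fin (n + 1)} (h : (coneGraph G).Adj u v)
    (hu : u ≠ Fin.last n) (hv : v ≠ Fin.last n) :
    ∃ i j, G.Adj i j ∧ u = Fin.castSucc i ∧ v = Fin.castSucc j := by
  rcases h with h | h | h
  · exact absurd h.1 hu
  · exact absurd h.1 hv
  · exact h

lemma cone_endpoint (G : SimpleGraph (Fin n)) {u v : Fin (n + 1)} (h : (coneGraph G).Adj u v) :
    u ≠ Fin.last n ∨ v ≠ Fin.last n := by
  by_contra hcon
  push Not at hcon
  rw [hcon.1, hcon.2] at h
  exact (coneGraph G).loopless.irrefl _ h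

theorem Kfam_cone (G : SimpleGraph (Fin n)) (W : Finset (Fin n)) :
    Kfam (P2 (coneGraph G)) (adeg W) = coneFam (Fin.last n)
      (W.map Fin.castSuccOrderEmb.toEmbedding) (mapFam Fin.castSuccOrderEmb (DD G W)) := by
  classical
  set e := Fin.last n with he
  set W' := W.map (Fin.castSuccOrderEmb (n := n)).toEmbedding with hW'
  have heW : e ∉ W' := last_notMem W
  ext F
  constructor
  · rintro ⟨h1, u, v, u', v', hadj, hadj', hle⟩
    have hFW : ∀ x ∈ F, x ≠ e → x ∈ W' := by
      intro x hx hxe
      have h2 := h1 x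
      rw [sqf_apply, if_pos hx, adeg_of_ne W hxe] at h2
      by_contra hcon
      rw [if_neg hcon] at h2
      omega
    have hpt : ∀ x, ((if u = x then 1 else 0) + (if v = x then 1 else 0)) +
        ((if u' = x then 1 else 0) + (if v' = x then 1 else 0)) ≤
          adeg W x - (if x ∈ F then 1 else 0) := by
      intro x
      have h2 := hle x
      simpa only [Finsupp.add_apply, Finsupp.tsub_apply, Finsupp.single_apply, sqf_apply] using h2
    have hmem : ∀ x, x ≠ e → 1 ≤ adeg W x - (if x ∈ F then 1 else 0) → x ∈ W' ∧ x ∉ F := by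
      intro x hx h2
      rw [adeg_of_ne W hx] at h2
      constructor
      · by_contra hcon
        rw [if_neg hcon] at h2
        omega
      · intro hcon
        rw [if_pos hcon] at h2
        split_ifs at h2 <;> omega
    have hle1 : ∀ x, x ≠ e → adeg W x - (if x ∈ F then 1 else 0) ≤ 1 := by
      intro x hx
      rw [adeg_of_ne W hx]
      split_ifs <;> omega
    have huv : u ≠ v := hadj.ne
    have huv' : u' ≠ v' := hadj'.ne
    by_cases heF : e ∈ F
    · -- the cone vertex is in `F`
      -- an edge avoiding the cone point and an endpoint of the other one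
      have key : ∃ p q r, (coneGraph G).Adj p q ∧ p ≠ e ∧ q ≠ e ∧ r ≠ e ∧ p ≠ r ∧ q ≠ r ∧
          (p ∈ W' ∧ p ∉ F) ∧ (q ∈ W' ∧ q ∉ F) ∧ (r ∈ W' ∧ r ∉ F) := by
        have hee := hpt e
        rw [adeg_last, if_pos heF] at hee
        have hsub : ∀ (p q r s : Fin (n + 1)), (∀ x, ((if p = x then 1 else 0) +
            (if q = x then 1 else 0)) + ((if r = x then 1 else 0) + (if s = x then 1 else 0)) ≤
            adeg W x - (if x ∈ F then 1 else 0)) → (coneGraph G).Adj p q → p ≠ e → q ≠ e → r ≠ e →
            ∃ p q r, (coneGraph G).Adj p q ∧ p ≠ e ∧ q ≠ e ∧ r ≠ e ∧ p ≠ r ∧ q ≠ r ∧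
              (p ∈ W' ∧ p ∉ F) ∧ (q ∈ W' ∧ q ∉ F) ∧ (r ∈ W' ∧ r ∉ F) := by
          intro p q r s h2 h3 hp hq hr
          have hp2 := h2 p
          have hq2 := h2 q
          have hr2 := h2 r
          have hp3 := hle1 p hp
          have hq3 := hle1 q hq
          have hr3 := hle1 r hr
          have hpr : p ≠ r := by
            rintro rfl
            rw [if_pos rfl] at hp2
            omega
          have hqr : q ≠ r := by
            rintro rfl
            rw [if_pos rfl] at hq2
            omega
          rw [if_pos rfl] at hp2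
          have h5 : (if q = q then 1 else 0) = 1 := if_pos rfl
          have h6 : (if r = r then 1 else 0) = 1 := if_pos rfl
          rw [h5] at hq2
          rw [h6] at hr2
          exact ⟨p, q, r, h3, hp, hq, hr, hpr, hqr, hmem p hp (by omega), hmem q hq (by omega),
            hmem r hr (by omega)⟩
        by_cases hue : u = e
        · -- then `u', v'` avoid `e`
          have hu' : u' ≠ e := by
            intro h; rw [if_pos hue, if_pos h] at hee; omega
          have hv' : v' ≠ e := by
            intro h; rw [if_pos hue, if_pos h] at hee; omega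
          have hv : v ≠ e := fun h => huv (hue.trans h.symm)
          exact hsub u' v' v u (fun x => by have := hpt x; omega) hadj' hu' hv' hv
        · by_cases hve : v = e
          · have hu' : u' ≠ e := by
              intro h; rw [if_pos hve, if_pos h] at hee; omega
            have hv' : v' ≠ e := by
              intro h; rw [if_pos hve, if_pos h] at hee; omega
            exact hsub u' v' u v (fun x => by have := hpt x; omega) hadj' hu' hv' hue
          · rcases cone_endpoint G hadj' with h | h
            · exact hsub u v u' v' hpt hadj hue hve h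
            · exact hsub u v v' u' (fun x => by have := hpt x; omega) hadj hue hve h
      obtain ⟨p, q, r, hpq, hp, hq, hr, hpr, hqr, ⟨hpW, hpF⟩, ⟨hqW, hqF⟩, ⟨hrW, hrF⟩⟩ := key
      have hsub : F.erase e ⊆ W' := fun x hx =>
        hFW x (Finset.mem_of_mem_erase hx) (Finset.ne_of_mem_erase hx)
      constructor
      · have h2 : insert p (insert q (insert r (F.erase e))) ⊆ W' := by
          intro x hx
          simp only [Finset.mem_insert] at hx
          rcases hx with rfl | rfl | rfl | hx
          · exact hpW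
          · exact hqW
          · exact hrW
          · exact hsub hx
        have h3 := Finset.card_le_card h2
        rw [Finset.card_insert_of_notMem, Finset.card_insert_of_notMem,
          Finset.card_insert_of_notMem, Finset.card_erase_of_mem heF] at h3
        · have := Finset.card_pos.mpr ⟨e, heF⟩
          omega
        · intro h; exact hrF (Finset.mem_of_mem_erase h)
        · rw [Finset.mem_insert, not_or]
          exact ⟨hqr, fun h => hqF (Finset.mem_of_mem_erase h)⟩
        · rw [Finset.mem_insert, not_or, Finset.mem_insert, not_or]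
          exact ⟨hpq.ne, hpr, fun h => hpF (Finset.mem_of_mem_erase h)⟩
      · right
        refine ⟨heF, ?_⟩
        obtain ⟨F0, hF0⟩ := image_of_subset Fin.castSuccOrderEmb hsub ⟨W, rfl⟩
        obtain ⟨i, j, hij, rfl, rfl⟩ := cone_adj_of_ne G hpq hp hq
        refine ⟨F0, ⟨?_, i, ?_, j, ?_, ?_, ?_, hij⟩, hF0.symm⟩
        · rw [← hF0, hW', Finset.map_subset_map] at hsub
          exact hsub
        · rw [hW', Finset.mem_map] at hpW
          obtain ⟨i', hi', h3⟩ := hpW
          rw [← Fin.castSucc_injective _ h3]; exact hi'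
        · rw [hW', Finset.mem_map] at hqW
          obtain ⟨i', hi', h3⟩ := hqW
          rw [← Fin.castSucc_injective _ h3]; exact hi'
        · intro h
          apply hpF
          apply Finset.mem_of_mem_erase (a := e)
          rw [← hF0]
          exact Finset.mem_map_of_mem _ h
        · intro h
          apply hqF
          apply Finset.mem_of_mem_erase (a := e)
          rw [← hF0]
          exact Finset.mem_map_of_mem _ h
    · -- the cone vertex is not in `F`
      have hFW' : F ⊆ W' := fun x hx => hFW x hx (by rintro rfl; exact heF hx)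
      have key : ∃ p q, p ≠ q ∧ (p ∈ W' ∧ p ∉ F) ∧ (q ∈ W' ∧ q ∉ F) := by
        have hsub : ∀ (p q r s : Fin (n + 1)), (∀ x, ((if p = x then 1 else 0) +
            (if q = x then 1 else 0)) + ((if r = x then 1 else 0) + (if s = x then 1 else 0)) ≤
            adeg W x - (if x ∈ F then 1 else 0)) → p ≠ e → r ≠ e →
            ∃ p q, p ≠ q ∧ (p ∈ W' ∧ p ∉ F) ∧ (q ∈ W' ∧ q ∉ F) := by
          intro p q r s h2 hp hr
          have hp2 := h2 p
          have hr2 := h2 r
          have hp3 := hle1 p hp
          have hpr : p ≠ r := by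
            rintro rfl
            rw [if_pos rfl] at hp2
            omega
          have h5 : (if p = p then 1 else 0) = 1 := if_pos rfl
          have h6 : (if r = r then 1 else 0) = 1 := if_pos rfl
          rw [h5] at hp2
          rw [h6] at hr2
          exact ⟨p, r, hpr, hmem p hp (by omega), hmem r hr (by omega)⟩
        rcases cone_endpoint G hadj with h | h <;> rcases cone_endpoint G hadj' with h' | h'
        · exact hsub u v u' v' hpt h h'
        · exact hsub u v v' u' (fun x => by have := hpt x; omega) h h'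
        · exact hsub v u u' v' (fun x => by have := hpt x; omega) h h'
        · exact hsub v u v' u' (fun x => by have := hpt x; omega) h h'
      obtain ⟨p, q, hpq, ⟨hpW, hpF⟩, ⟨hqW, hqF⟩⟩ := key
      refine ⟨?_, Or.inl ⟨heF, hFW'⟩⟩
      have h2 : insert p (insert q F) ⊆ W' := by
        intro x hx
        simp only [Finset.mem_insert] at hx
        rcases hx with rfl | rfl | hx
        · exact hpW
        · exact hqW
        · exact hFW' hx
      have h3 := Finset.card_le_card h2
      rw [Finset.card_insert_of_notMem, Finset.card_insert_of_notMem hqF] at h3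
      · exact h3
      · rw [Finset.mem_insert, not_or]; exact ⟨hpq, hpF⟩
  · rintro ⟨hcard, h⟩
    rcases h with ⟨heF, hFW⟩ | ⟨heF, F0, ⟨hF0W, u, hu, v, hv, huF, hvF, hadj⟩, hF0⟩
    · constructor
      · intro x
        rw [sqf_apply]
        by_cases hx : x ∈ F
        · have hxe : x ≠ e := by rintro rfl; exact heF hx
          rw [if_pos hx, adeg_of_ne W hxe, if_pos (hFW hx)]
        · rw [if_neg hx]; exact Nat.zero_le _
      · have h1 : 1 < (W' \ F).card := by
          rw [Finset.card_sdiff_of_subset hFW]; omega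
        rw [Finset.one_lt_card] at h1
        obtain ⟨p, hp, q, hq, hpq⟩ := h1
        rw [Finset.mem_sdiff] at hp hq
        have hpe : p ≠ e := by rintro rfl; exact heW hp.1
        have hqe : q ≠ e := by rintro rfl; exact heW hq.1
        refine ⟨e, p, e, q, Or.inl ⟨rfl, hpe⟩, Or.inl ⟨rfl, hqe⟩, ?_⟩
        intro x
        simp only [Finsupp.add_apply, Finsupp.tsub_apply, Finsupp.single_apply, sqf_apply]
        by_cases hxe : e = x
        · subst hxe
          rw [if_pos rfl, if_neg hpe, if_neg hqe, if_neg heF, adeg_last] <;> omega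
        · rw [if_neg hxe]
          by_cases hxp : p = x
          · subst hxp
            rw [if_pos rfl, if_neg hpq.symm, if_neg hp.2, adeg_of_ne W hpe, if_pos hp.1] <;> omega
          · rw [if_neg hxp]
            by_cases hxq : q = x
            · subst hxq
              rw [if_pos rfl, if_neg hq.2, adeg_of_ne W hqe, if_pos hq.1] <;> omega
            · rw [if_neg hxq]
              exact Nat.zero_le _
    · have hsub : F.erase e ⊆ W' := by
        rw [hF0, hW']
        exact Finset.map_subset_map.mpr hF0W
      constructor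
      · intro x
        rw [sqf_apply]
        by_cases hx : x ∈ F
        · rw [if_pos hx]
          by_cases hxe : x = e
          · subst hxe; rw [adeg_last]; omega
          · rw [adeg_of_ne W hxe, if_pos (hsub (Finset.mem_erase.mpr ⟨hxe, hx⟩))]
        · rw [if_neg hx]; exact Nat.zero_le _
      · set p : Fin (n + 1) := Fin.castSucc u with hpdef
        set q : Fin (n + 1) := Fin.castSucc v with hqdef
        have hpe : p ≠ e := (Fin.castSucc_lt_last u).ne
        have hqe : q ≠ e := (Fin.castSucc_lt_last v).ne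
        have hpq : p ≠ q := fun h => hadj.ne (Fin.castSucc_injective _ h)
        have hpW : p ∈ W' := by
          rw [hW']; exact Finset.mem_map_of_mem Fin.castSuccOrderEmb.toEmbedding hu
        have hqW : q ∈ W' := by
          rw [hW']; exact Finset.mem_map_of_mem Fin.castSuccOrderEmb.toEmbedding hv
        have hnot : ∀ w : Fin n, w ∉ F0 → (Fin.castSucc w) ∉ F := by
          intro w hw h
          have h2 : Fin.castSucc w ∈ F.erase e :=
            Finset.mem_erase.mpr ⟨(Fin.castSucc_lt_last w).ne, h⟩
          rw [hF0, Finset.mem_map] at h2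
          obtain ⟨w', hw', h3⟩ := h2
          exact hw (Fin.castSucc_injective _ h3 ▸ hw')
        have hpF : p ∉ F := hnot u huF
        have hqF : q ∉ F := hnot v hvF
        have h1 : ∃ r, r ∈ ((W' \ F.erase e).erase p).erase q := by
          apply Finset.card_pos.mp
          have h2 : p ∈ W' \ F.erase e := Finset.mem_sdiff.mpr
            ⟨hpW, fun h => hpF (Finset.mem_of_mem_erase h)⟩
          have h3 : q ∈ (W' \ F.erase e).erase p := Finset.mem_erase.mpr ⟨hpq.symm,
            Finset.mem_sdiff.mpr ⟨hqW, fun h => hqF (Finset.mem_of_mem_erase h)⟩⟩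
          rw [Finset.card_erase_of_mem h3, Finset.card_erase_of_mem h2,
            Finset.card_sdiff_of_subset hsub, Finset.card_erase_of_mem heF]
          have := Finset.card_pos.mpr ⟨e, heF⟩
          omega
        obtain ⟨r, hr⟩ := h1
        rw [Finset.mem_erase, Finset.mem_erase, Finset.mem_sdiff] at hr
        obtain ⟨hrq, hrp, hrW, hrF⟩ := hr
        have hre : r ≠ e := by rintro rfl; exact heW hrW
        have hrF' : r ∉ F := fun h => hrF (Finset.mem_erase.mpr ⟨hre, h⟩)
        refine ⟨p, q, e, r, Or.inr (Or.inr ⟨u, v, hadj, rfl, rfl⟩), Or.inl ⟨rfl, hre⟩, ?_⟩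
        intro x
        simp only [Finsupp.add_apply, Finsupp.tsub_apply, Finsupp.single_apply, sqf_apply]
        by_cases hxe : e = x
        · subst hxe
          rw [if_neg hpe, if_neg hqe, if_pos rfl, if_neg hre, if_pos heF, adeg_last] <;> omega
        · rw [if_neg hxe]
          by_cases hxp : p = x
          · subst hxp
            rw [if_pos rfl, if_neg hpq.symm, if_neg hrp, if_neg hpF, adeg_of_ne W hpe,
              if_pos hpW] <;> omega
          · rw [if_neg hxp]
            by_cases hxq : q = x
            · subst hxq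
              rw [if_pos rfl, if_neg hrq, if_neg hqF, adeg_of_ne W hqe, if_pos hqW] <;> omega
            · rw [if_neg hxq]
              by_cases hxr : r = x
              · subst hxr
                rw [if_pos rfl, if_neg hrF', adeg_of_ne W hre, if_pos hrW] <;> omega
              · rw [if_neg hxr]
                exact Nat.zero_le _

theorem result (n : ℕ) (G : SimpleGraph (Fin n))
    (h : FieldDependent fun K _ => edgeIdeal G K) :
    FieldDependent fun K _ => (edgeIdeal (coneGraph G) K) ^ 2 := by
  classical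
  -- a multidegree with field dependence
  have h1 : ∃ (K : Type) (_ : Field K) (i : ℕ) (a : Fin n →₀ ℕ),
      hdim K (Kfam (PG G) a) i ≠ hdim ℚ (Kfam (PG G) a) i := by
    obtain ⟨K, hK, K', hK', i, j, hne⟩ := h
    by_contra hcon
    push Not at hcon
    apply hne
    have h2 : ∀ (L : Type) [Field L], gbetti L (edgeIdeal G L) i j =
        gbetti ℚ (edgeIdeal G ℚ) i j := by
      intro L hL
      unfold gbetti
      refine Finset.sum_congr rfl fun a _ => ?_
      rw [mbetti_eq L (PG_upper G) (edgeIdeal_eq G L), mbetti_eq ℚ (PG_upper G) (edgeIdeal_eq G ℚ)]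
      exact hcon L hL i a
    rw [h2 K, h2 K']
  obtain ⟨K, hK, i, a, hne⟩ := h1
  -- it is squarefree
  have ha : ∀ l, a l ≤ 1 := by
    intro l
    by_contra hcon
    apply hne
    rw [hdim_nonsqf G K a l (by omega), hdim_nonsqf G ℚ a l (by omega)]
  obtain ⟨W, rfl⟩ : ∃ W : Finset (Fin n), a = sqf W := by
    refine ⟨Finset.univ.filter (fun l => a l = 1), ?_⟩
    ext l
    rw [sqf_apply]
    simp only [Finset.mem_filter, Finset.mem_univ, true_and]
    have := ha l
    split_ifs <;> omega
  rw [Kfam_sqf] at hne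
  obtain ⟨s, hs⟩ : ∃ s, rk K (DD G W) s ≠ rk ℚ (DD G W) s := by
    by_contra hcon
    push Not at hcon
    apply hne
    have h2 := hdim_add' K (DD_down G W) i
    have h3 := hdim_add' ℚ (DD_down G W) i
    rw [hcon i, hcon (i + 1)] at h2
    omega
  have hsW : s + 3 ≤ W.card := by
    by_contra hcon
    exact hs (rk_DD_top K G W (by omega))
  have hzk : zk ℚ (DD G W) s < zk K (DD G W) s := by
    have h2 := rk_add_zk K (DD G W) s
    have h3 := rk_add_zk ℚ (DD G W) s
    have h4 := rk_le_rat K (DD G W) s
    omega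
  -- the cone
  set W' := W.map (Fin.castSuccOrderEmb (n := n)).toEmbedding with hW'
  have hcW : W'.card = W.card := Finset.card_map _
  have hne' : W'.Nonempty := Finset.card_pos.mp (by omega)
  have hformula : ∀ (L : Type) [Field L],
      zk L (Kfam (P2 (coneGraph G)) (adeg W)) (s + 1) =
        zk L (DD G W) s + zk ℚ (simp' W') (s + 1) := by
    intro L _
    rw [Kfam_cone, zk_coneFam L (last_notMem W) _ (by rw [← hW', hcW]; exact hsW), zk_mapFam,
      zk_simp_indep L hne']
    rintro F ⟨F0, ⟨hF0, _⟩, rfl⟩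
    exact Finset.map_subset_map.mpr hF0
  set 𝓕 := Kfam (P2 (coneGraph G)) (adeg W) with h𝓕
  have hlt : hdim ℚ 𝓕 (s + 1) < hdim K 𝓕 (s + 1) := by
    have hdown : ∀ F ∈ 𝓕, ∀ F', F' ⊆ F → F' ∈ 𝓕 :=
      Kfam_down (P2_upper (coneGraph G)) (adeg W)
    have h2 := hdim_add' K hdown (s + 1)
    have h3 := hdim_add' ℚ hdown (s + 1)
    have h4 := rk_add_zk K 𝓕 (s + 1)
    have h5 := rk_add_zk ℚ 𝓕 (s + 1)
    have h6 : zk K 𝓕 (s + 1) = zk K (DD G W) s + zk ℚ (simp' W') (s + 1) := hformula K
    have h7 : zk ℚ 𝓕 (s + 1) = zk ℚ (DD G W) s + zk ℚ (simp' W') (s + 1) := hformula ℚ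
    have h8 := rk_le_rat K 𝓕 (s + 1 + 1)
    omega
  refine ⟨K, hK, ℚ, inferInstance, s + 1, W.card + 2, ?_⟩
  apply ne_of_gt
  unfold gbetti
  apply Finset.sum_lt_sum
  · intro b _
    rw [mbetti_eq K (P2_upper _) (edgeIdeal_sq _ K), mbetti_eq ℚ (P2_upper _) (edgeIdeal_sq _ ℚ)]
    exact hdim_ge_rat K (Kfam_down (P2_upper _) b) _
  · refine ⟨adeg W, ?_, ?_⟩
    · rw [Finset.mem_finsuppAntidiag]
      refine ⟨?_, Finset.subset_univ _⟩
      unfold adeg
      simp only [Finsupp.add_apply, Finset.sum_add_distrib, sqf_apply]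
      rw [Finset.sum_ite_mem, Finset.univ_inter]
      simp [Finsupp.single_apply]
    · rw [mbetti_eq K (P2_upper _) (edgeIdeal_sq _ K), mbetti_eq ℚ (P2_upper _) (edgeIdeal_sq _ ℚ)]
      exact hlt

end

end Pool.Agent.Results.MP_01886a_al.ConeSquare
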